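import Pool.Agent.OneS.GpF

/-!
# The inertial quotient is abelian for a defect group of rank two which is not homocyclic
-/

set_option autoImplicit false

namespace Pool.Agent.OneS

open MonoidAlgebra IsLocalRing Pool.Agent.UBlocks Pool.Agent.SigB Pool.Agent.SigO Pool.Agent.DG
  Pool.Agent.URing

section Conj

variable {G : Type} [Group G]

/-- The action of `T` on `D` by conjugation. -/
private def cja (D T : Subgroup G) (hT : ∀ g ∈ T, ∀ x, x ∈ D ↔ g * x * g⁻¹ ∈ D) :
    T →* MulAut D where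
  toFun t :=
    { toFun := fun x => ⟨t * x * (t : G)⁻¹, (hT t t.2 x).1 x.2⟩
      invFun := fun x => ⟨(t : G)⁻¹ * x * t, (hT t t.2 _).2 (by
        have h : (t : G) * ((t : G)⁻¹ * x * t) * (t : G)⁻¹ = x := by group
        rw [h]
        exact x.2)⟩
      left_inv := fun x => Subtype.ext (by
        show (t : G)⁻¹ * (t * x * (t : G)⁻¹) * t = x
        group)
      right_inv := fun x => Subtype.ext (by
        show (t : G) * ((t : G)⁻¹ * x * t) * (t : G)⁻¹ = x
        group)
      map_mul' := fun x y => Subtype.ext (by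
        show (t : G) * (x * y) * (t : G)⁻¹ = t * x * (t : G)⁻¹ * (t * y * (t : G)⁻¹)
        group) }
  map_one' := by
    ext x
    show (1 : G) * x * (1 : G)⁻¹ = x
    group
  map_mul' s t := by
    ext x
    show ((s : G) * t) * x * ((s : G) * t)⁻¹ = s * (t * x * (t : G)⁻¹) * (s : G)⁻¹
    group

private theorem cja_apply (D T : Subgroup G) (hT : ∀ g ∈ T, ∀ x, x ∈ D ↔ g * x * g⁻¹ ∈ D) (t : T)
    (x : D) : ((cja D T hT t x : D) : G) = t * x * (t : G)⁻¹ := rfl

private theorem cja_one (D T : Subgroup G) (hT : ∀ g ∈ T, ∀ x, x ∈ D ↔ g * x * g⁻¹ ∈ D) (t : T) :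
    cja D T hT t = 1 ↔ (t : G) ∈ Subgroup.centralizer (D : Set G) := by
  rw [Subgroup.mem_centralizer_iff]
  constructor
  · intro h x hx
    have h1 := congrArg (fun f : MulAut D => ((f ⟨x, hx⟩ : D) : G)) h
    change (t : G) * x * (t : G)⁻¹ = x at h1
    rw [mul_inv_eq_iff_eq_mul] at h1
    exact h1.symm
  · intro h
    ext x
    rw [cja_apply, ← h x x.2]
    show (x : G) * t * (t : G)⁻¹ = x
    rw [mul_inv_cancel_right]

private theorem cja_comm (D T : Subgroup G) (hT : ∀ g ∈ T, ∀ x, x ∈ D ↔ g * x * g⁻¹ ∈ D)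
    (h : ∀ s t : T, cja D T hT s * cja D T hT t = cja D T hT t * cja D T hT s) :
    ∀ g ∈ T, ∀ h ∈ T, g * h * g⁻¹ * h⁻¹ ∈ Subgroup.centralizer (D : Set G) := by
  intro g hg h' hh
  have h1 := (cja_one D T hT (⟨g, hg⟩ * ⟨h', hh⟩ * ⟨g, hg⟩⁻¹ * ⟨h', hh⟩⁻¹)).1 (by
    rw [map_mul, map_mul, map_mul, map_inv, map_inv, h]
    group)
  exact h1

end Conj

/-- The inertial quotient is abelian if `D` is the direct product of two cyclic groups of different
orders. -/
theorem abel_E {k G : Type} [Field k] [IsAlgClosed k] [Group G] [Finite G] {p : ℕ}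
    [Fact p.Prime] [CharP k p] (b : MonoidAlgebra k G) (D : Subgroup G)
    (hp : IsPGroup p D) (hab : ∀ x ∈ D, ∀ y ∈ D, x * y = y * x) (htr : TrFrom b D)
    (e : MonoidAlgebra k (Subgroup.centralizer (D : Set G))) (he : IsBlk e)
    (hbe : e * brD D b = e) (x y : G) (hs : Subgroup.zpowers x ⊔ Subgroup.zpowers y = D)
    (hi : Subgroup.zpowers x ⊓ Subgroup.zpowers y = ⊥) (hne : orderOf x ≠ orderOf y) :
    ∀ g ∈ inertial D e, ∀ h ∈ inertial D e,
      g * h * g⁻¹ * h⁻¹ ∈ Subgroup.centralizer (D : Set G) := by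
  classical
  have instG : Fintype G := Fintype.ofFinite G
  have hT0 : ∀ g ∈ inertial D e, ∀ x, x ∈ D ↔ g * x * g⁻¹ ∈ D := fun g hg x => hg.1 x
  have hxD : x ∈ D := by
    rw [← hs]
    exact Subgroup.mem_sup_left (Subgroup.mem_zpowers x)
  have hyD : y ∈ D := by
    rw [← hs]
    exact Subgroup.mem_sup_right (Subgroup.mem_zpowers y)
  -- a cyclic defect group
  have hcyc : ∀ z : G, Subgroup.zpowers z = D → ∀ g ∈ inertial D e, ∀ h ∈ inertial D e,
      g * h * g⁻¹ * h⁻¹ ∈ Subgroup.centralizer (D : Set G) := by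
    intro z hz
    apply cja_comm D (inertial D e) hT0
    intro s t
    have hzD : z ∈ D := by
      rw [← hz]
      exact Subgroup.mem_zpowers z
    have h1 : ∀ t : inertial D e, ∃ n : ℤ, ∀ u : D, cja D _ hT0 t u = u ^ n := by
      intro t
      have h2 : (t : G) * z * (t : G)⁻¹ ∈ Subgroup.zpowers z := by
        rw [hz]
        exact (hT0 t t.2 z).1 hzD
      obtain ⟨n, hn⟩ := Subgroup.mem_zpowers_iff.1 h2
      refine ⟨n, fun u => ?_⟩
      obtain ⟨m, hm⟩ := Subgroup.mem_zpowers_iff.1 (hz ▸ u.2 : (u : G) ∈ Subgroup.zpowers z)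
      have h3 : u = (⟨z, hzD⟩ : D) ^ m := Subtype.ext (by rw [← hm]; rfl)
      rw [h3, map_zpow]
      have h4 : cja D _ hT0 t ⟨z, hzD⟩ = (⟨z, hzD⟩ : D) ^ n := Subtype.ext hn.symm
      rw [h4, ← zpow_mul, ← zpow_mul, mul_comm]
    obtain ⟨m, hm⟩ := h1 s
    obtain ⟨n, hn⟩ := h1 t
    ext u
    rw [MulAut.mul_apply, MulAut.mul_apply, hn, hm, hm, hn, ← zpow_mul, ← zpow_mul, mul_comm]
  by_cases hx1 : x = 1
  · subst hx1
    rw [Subgroup.zpowers_one_eq_bot, bot_sup_eq] at hs
    exact hcyc y hs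
  by_cases hy1 : y = 1
  · subst hy1
    rw [Subgroup.zpowers_one_eq_bot, sup_bot_eq] at hs
    exact hcyc x hs
  -- rank two
  have hβ : BlkOf (Subgroup.centralizer (D : Set G)) (emb _ e) := emb_blk he
  have hβb : emb _ e * tru ((Subgroup.centralizer (D : Set G)) : Set G) b = emb _ e := emb_brD hbe
  have hCT : (Subgroup.centralizer (D : Set G)) ≤ inertial D e := by
    intro g hg
    rw [mem_inertial_iff]
    refine ⟨fun u => ⟨u, ?_⟩, hβ.cent g hg⟩
    have := Subgroup.mem_centralizer_iff.1 hg u u.2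
    rw [← this, mul_assoc, mul_inv_cancel, mul_one]
  have hTN : inertial D e ≤ Subgroup.normalizer (D : Set G) := by
    intro g hg
    rw [Subgroup.mem_normalizer_iff]
    exact hT0 g hg
  have hn := not_dvd_idx (p := p) D hp hab b htr (emb _ e) hβ hβb (inertial D e) hCT hTN
    (fun g hg => ((mem_inertial_iff g).1 hg).2)
  let f := cja D (inertial D e) hT0
  have hker : f.ker = (Subgroup.centralizer (D : Set G)).subgroupOf (inertial D e) := by
    ext t
    rw [MonoidHom.mem_ker, Subgroup.mem_subgroupOf]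
    exact cja_one D _ hT0 t
  have hcard : ¬ p ∣ Nat.card f.range := by
    rw [← Subgroup.index_ker, hker]
    exact hn
  let instP : CommGroup D :=
    { (inferInstance : Group D) with
      mul_comm := fun x y => Subtype.ext (hab x x.2 y y.2) }
  let instA : MulDistribMulAction f.range D :=
    { smul := fun s u => (s : MulAut D) u
      one_smul := fun u => rfl
      mul_smul := fun s t u => rfl
      smul_mul := fun s u v => map_mul (s : MulAut D) u v
      smul_one := fun s => map_one (s : MulAut D) }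
  have hsm : ∀ (s : f.range) (u : D), s • u = (s : MulAut D) u := fun s u => rfl
  have hx' : (⟨x, hxD⟩ : D) ≠ 1 := fun h => hx1 (congrArg Subtype.val h)
  have hy' : (⟨y, hyD⟩ : D) ≠ 1 := fun h => hy1 (congrArg Subtype.val h)
  have hm1 : (Subgroup.zpowers (⟨x, hxD⟩ : D)).map D.subtype = Subgroup.zpowers x := by
    rw [MonoidHom.map_zpowers]
    rfl
  have hm2 : (Subgroup.zpowers (⟨y, hyD⟩ : D)).map D.subtype = Subgroup.zpowers y := by
    rw [MonoidHom.map_zpowers]
    rfl
  have hr := (BrP.rank_two (D := D) (E := f.range) (Fact.out : p.Prime) hp hcard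
    (fun t ht => Subtype.ext (MulEquiv.ext fun u => ht u)) hx' hy'
    (by
      apply Subgroup.map_injective D.subtype_injective
      rw [Subgroup.map_sup, hm1, hm2, hs, ← MonoidHom.range_eq_map, D.range_subtype])
    (by
      apply Subgroup.map_injective D.subtype_injective
      rw [Subgroup.map_inf _ _ _ D.subtype_injective, hm1, hm2, hi, Subgroup.map_bot])
    (Or.inl (by
      rw [← orderOf_injective D.subtype D.subtype_injective,
        ← orderOf_injective D.subtype D.subtype_injective]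
      exact hne))).1
  apply cja_comm D (inertial D e) hT0
  intro s t
  exact congrArg Subtype.val (hr ⟨f s, s, rfl⟩ ⟨f t, t, rfl⟩)

section Main

variable (Λ : Type) [CommRing Λ] [IsLocalRing Λ] [IsAdicComplete (maximalIdeal Λ) Λ]
  [IsAlgClosed (ResidueField Λ)] (p : ℕ) [Fact p.Prime] [CharP (ResidueField Λ) p]

/-- THEOREM L. -/
theorem main_L3 (G : Type) [Group G] [Finite G] (b : MonoidAlgebra Λ G) (hb : IsBlk b)
    (D : Subgroup G) (hD : IsDefectGroup p b D) (hab : ∀ x ∈ D, ∀ y ∈ D, x * y = y * x)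
    (c : MonoidAlgebra Λ (Subgroup.normalizer (D : Set G))) (hc : IsBlk c)
    (hbc : IsBrauerCorrespondent b D c)
    (e : MonoidAlgebra (ResidueField Λ) (Subgroup.centralizer (D : Set G))) (he : IsBlk e)
    (hbe : e * brD D (MonoidAlgebra.mapRingHom G (residue Λ) b) = e)
    (hcl : (∃ x y : G, Subgroup.zpowers x ⊔ Subgroup.zpowers y = D ∧
        Subgroup.zpowers x ⊓ Subgroup.zpowers y = ⊥ ∧ (orderOf x ≠ orderOf y ∨
          ∀ g ∈ inertial D e, ∀ h ∈ inertial D e,
            g * h * g⁻¹ * h⁻¹ ∈ Subgroup.centralizer (D : Set G))) ∨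
      (∀ g ∈ inertial D e, ∀ h ∈ inertial D e,
        g * h * g⁻¹ * h⁻¹ ∈ Subgroup.centralizer (D : Set G)) ∧
      ∀ R : Subgroup G, R ≤ D → (∃ g ∈ inertial D e, g ∉ Subgroup.centralizer (D : Set G) ∧
        ∀ x ∈ R, g * x * g⁻¹ = x) → ∀ g ∈ inertial D e, ∀ x ∈ R, g * x * g⁻¹ ∈ R)
    (h1 : OneSimple (BlkAlg hc)) : Mor (BlkAlg hb) (BlkAlg hc) := by
  rcases hcl with ⟨x, y, hs, hi, h | h⟩ | ⟨h, h2⟩
  · exact main_L2 Λ p G b hb D hD hab c hc hbc e he hbe
      (abel_E (p := p) (mp G (residue Λ) b) D hD.pgroup hab (mp_trFrom _ b D hD.trace) e he hbe x y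
        hs hi h) (Or.inl ⟨x, y, hs, hi⟩) h1
  · exact main_L2 Λ p G b hb D hD hab c hc hbc e he hbe h (Or.inl ⟨x, y, hs, hi⟩) h1
  · exact main_L2 Λ p G b hb D hD hab c hc hbc e he hbe h (Or.inr h2) h1

end Main

end Pool.Agent.OneS
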